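import Pool.Agent.Helper59.AN.Goals
import Pool.Agent.Helper60.NU.EX1

/-!
# MP_4137ca_lc: packet EXT

Extensionality of the new predicates.
-/

noncomputable section

namespace AN.PkEXT

open Pool.Agent.Helper97.Ku NU
open NU.PkEX1 (ext_iff)

theorem ext : G_EXT := by
  intro L _
  obtain ⟨h1, h2, h3, h4, h5⟩ := NU.PkEX1.ex1 L
  have c : ∀ b : L, BSet.Ext (fun _ : BSet L => b) := BSet.Ext.const
  have ik : ∀ o k x y : BSet L, ∀ c' : BSet L, BSet.Ext (fun t => inoV o c' t x y) := by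
    intro o k x y c'
    unfold inoV
    refine BSet.Ext.iSup fun n => BSet.Ext.iSup fun s => BSet.Ext.iSup fun t =>
      BSet.Ext.iSup fun q => ?_
    exact BSet.Ext.inf (c _) (BSet.Ext.inf (c _) (BSet.Ext.inf (c _) (BSet.Ext.inf (c _)
      (BSet.Ext.inf (c _) (BSet.Ext.inf (c _) (h2 c' q).2.1)))))
  have ix : ∀ o c' k y : BSet L, BSet.Ext (fun t => inoV o c' k t y) := by
    intro o c' k y
    unfold inoV
    refine BSet.Ext.iSup fun n => BSet.Ext.iSup fun s => BSet.Ext.iSup fun t =>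
      BSet.Ext.iSup fun q => ?_
    exact BSet.Ext.inf (c _) (BSet.Ext.inf (c _) (BSet.Ext.inf (c _)
      (BSet.Ext.inf (h4 n s).2.2 (c _))))
  have iy : ∀ o c' k x : BSet L, BSet.Ext (fun t => inoV o c' k x t) := by
    intro o c' k x
    unfold inoV
    refine BSet.Ext.iSup fun n => BSet.Ext.iSup fun s => BSet.Ext.iSup fun t =>
      BSet.Ext.iSup fun q => ?_
    exact BSet.Ext.inf (c _) (BSet.Ext.inf (c _) (BSet.Ext.inf (c _) (BSet.Ext.inf (c _)
      (BSet.Ext.inf (h4 n t).2.2 (c _)))))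
  have hre : ∀ o : BSet L, BSet.Ext (fun x => realsV o x) := by
    intro o
    unfold realsV
    exact BSet.Ext.iInf fun x => BSet.Ext.himp (BSet.Ext.mem_right x) (c _)
  refine ⟨fun o c' k x y => ⟨ik o k x y c', ix o c' k y, iy o c' k x⟩, ?_, ?_, ?_⟩
  · intro o c'
    unfold prjV
    exact BSet.Ext.iSup fun y => BSet.Ext.inf (c _) (BSet.Ext.iInf fun k =>
      BSet.Ext.himp (c _) (ix o c' k y))
  · intro o R u Y
    constructor
    · unfold secV
      exact BSet.Ext.iInf fun x => ext_iff (c _) (BSet.Ext.inf (c _) (h2 R x).2.1)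
    · unfold secV
      exact BSet.Ext.iInf fun x => ext_iff (BSet.Ext.mem_right x) (c _)
  · intro o
    constructor
    · unfold anaV
      exact BSet.Ext.iSup fun _ => BSet.Ext.iInf fun x => ext_iff (BSet.Ext.mem_right x) (c _)
    · unfold sigV
      refine BSet.Ext.inf ?_ (BSet.Ext.inf ?_ (BSet.Ext.inf ?_ ?_))
      · exact BSet.Ext.iInf fun Y => BSet.Ext.himp (BSet.Ext.mem_right Y) (c _)
      · exact BSet.Ext.iSup fun Y => BSet.Ext.mem_right Y
      · unfold cplV
        exact BSet.Ext.iInf fun Y => BSet.Ext.himp (BSet.Ext.mem_right Y)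
          (BSet.Ext.iSup fun Z => BSet.Ext.inf (BSet.Ext.mem_right Z) (c _))
      · unfold unV
        exact BSet.Ext.iInf fun R => BSet.Ext.himp
          (BSet.Ext.iInf fun n => BSet.Ext.himp (c _) (BSet.Ext.iSup fun Y =>
            BSet.Ext.inf (BSet.Ext.mem_right Y) (c _)))
          (BSet.Ext.iSup fun Z => BSet.Ext.inf (BSet.Ext.mem_right Z) (c _))

end AN.PkEXT
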